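import Pool.Agent.TH292.MR.Defs

/-!
# Diffeomorphisms of the two-torus close to the identity
-/

set_option autoImplicit false

open Set Filter Topology MeasureTheory Function
open scoped ContDiff

namespace Pool.Agent.R191

open Pool.Agent.TH292.MR (Torus Plane proj)

/-- A `ℤ²`-periodic differentiable map of the plane whose derivative has norm at most `1/2`. -/
structure Pert (p : Plane → Plane) : Prop where
  per1 : ∀ z, p (z + (1, 0)) = p z
  per2 : ∀ z, p (z + (0, 1)) = p z
  diff : Differentiable ℝ p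
  bound : ∀ z, ‖fderiv ℝ p z‖ ≤ 1 / 2

lemma proj_surj : Surjective proj := by
  rintro ⟨a, b⟩
  obtain ⟨x, rfl⟩ := QuotientAddGroup.mk_surjective a
  obtain ⟨y, rfl⟩ := QuotientAddGroup.mk_surjective b
  exact ⟨(x, y), rfl⟩

lemma proj_oqm : IsOpenQuotientMap proj := by
  have h : IsOpenQuotientMap (fun x : ℝ => (x : UnitAddCircle)) :=
    QuotientAddGroup.isOpenQuotientMap_mk
  exact h.prodMap h

lemma proj_cont : Continuous proj := proj_oqm.continuous

lemma proj_eq {z w : Plane} : proj z = proj w ↔ ∃ m n : ℤ, w = z + ((m : ℝ), (n : ℝ)) := by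
  have key : ∀ a b : ℝ, (a : UnitAddCircle) = (b : UnitAddCircle) ↔ ∃ m : ℤ, b = a + m := by
    intro a b
    rw [eq_comm, ← sub_eq_zero, ← AddCircle.coe_sub, AddCircle.coe_eq_zero_iff]
    constructor
    · rintro ⟨n, hn⟩
      refine ⟨n, ?_⟩
      simp only [zsmul_eq_mul, mul_one] at hn
      linarith
    · rintro ⟨n, hn⟩
      refine ⟨n, ?_⟩
      simp only [zsmul_eq_mul, mul_one]
      linarith
  unfold proj
  rw [Prod.ext_iff]
  simp only [key]
  constructor
  · rintro ⟨⟨m, hm⟩, ⟨n, hn⟩⟩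
    exact ⟨m, n, by ext <;> simp [hm, hn]⟩
  · rintro ⟨m, n, h⟩
    rw [Prod.ext_iff] at h
    exact ⟨⟨m, h.1⟩, ⟨n, h.2⟩⟩

lemma proj_add_int (z : Plane) (m n : ℤ) : proj (z + ((m : ℝ), (n : ℝ))) = proj z :=
  (proj_eq.2 ⟨m, n, rfl⟩).symm

/-- A map commuting with the two generators of `ℤ²` commutes with `ℤ²`. -/
lemma equivariant {F : Plane → Plane} (h1 : ∀ z, F (z + (1, 0)) = F z + (1, 0))
    (h2 : ∀ z, F (z + (0, 1)) = F z + (0, 1)) (z : Plane) (m n : ℤ) :
    F (z + ((m : ℝ), (n : ℝ))) = F z + ((m : ℝ), (n : ℝ)) := by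
  have a1 : ∀ (m : ℕ) (z : Plane), F (z + ((m : ℝ), 0)) = F z + ((m : ℝ), 0) := by
    intro m
    induction m with
    | zero => intro z; simp [← Prod.zero_eq_mk]
    | succ m ih =>
      intro z
      have e : ∀ w : Plane, w + (((m + 1 : ℕ) : ℝ), 0) = w + ((m : ℝ), 0) + (1, 0) := by
        intro w; ext <;> simp; ring
      rw [e, h1, ih, e]
  have a2 : ∀ (m : ℕ) (z : Plane), F (z + (0, (m : ℝ))) = F z + (0, (m : ℝ)) := by
    intro m
    induction m with
    | zero => intro z; simp [← Prod.zero_eq_mk]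
    | succ m ih =>
      intro z
      have e : ∀ w : Plane, w + (0, ((m + 1 : ℕ) : ℝ)) = w + (0, (m : ℝ)) + (0, 1) := by
        intro w; ext <;> simp; ring
      rw [e, h2, ih, e]
  have b1 : ∀ (m : ℤ) (z : Plane), F (z + ((m : ℝ), 0)) = F z + ((m : ℝ), 0) := by
    intro m z
    obtain ⟨k, rfl | rfl⟩ := m.eq_nat_or_neg
    · exact_mod_cast a1 k z
    · have := a1 k (z + ((((-(k : ℤ)) : ℤ) : ℝ), 0))
      have e : z + ((((-(k : ℤ)) : ℤ) : ℝ), (0 : ℝ)) + ((k : ℝ), 0) = z := by ext <;> simp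
      rw [e] at this
      rw [this]
      ext <;> simp
  have b2 : ∀ (m : ℤ) (z : Plane), F (z + (0, (m : ℝ))) = F z + (0, (m : ℝ)) := by
    intro m z
    obtain ⟨k, rfl | rfl⟩ := m.eq_nat_or_neg
    · exact_mod_cast a2 k z
    · have := a2 k (z + (0, (((-(k : ℤ)) : ℤ) : ℝ)))
      have e : z + ((0 : ℝ), (((-(k : ℤ)) : ℤ) : ℝ)) + (0, (k : ℝ)) = z := by ext <;> simp
      rw [e] at this
      rw [this]
      ext <;> simp
  have e : ∀ w : Plane, w + ((m : ℝ), (n : ℝ)) = w + ((m : ℝ), 0) + (0, (n : ℝ)) := by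
    intro w; ext <;> simp
  rw [e, b2, b1, e]

/-- The descent of an equivariant map to the torus. -/
noncomputable def desc (F : Plane → Plane) (w : Torus) : Torus := proj (F (surjInv proj_surj w))

lemma desc_proj {F : Plane → Plane}
    (h : ∀ z (m n : ℤ), F (z + ((m : ℝ), (n : ℝ))) = F z + ((m : ℝ), (n : ℝ))) (z : Plane) :
    desc F (proj z) = proj (F z) := by
  unfold desc
  obtain ⟨m, n, hmn⟩ := proj_eq.1 (surjInv_eq proj_surj (proj z))
  conv_rhs => rw [hmn, h, proj_add_int]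

lemma desc_cont {F : Plane → Plane} (hF : Continuous F)
    (h : ∀ z (m n : ℤ), F (z + ((m : ℝ), (n : ℝ))) = F z + ((m : ℝ), (n : ℝ))) :
    Continuous (desc F) := by
  rw [proj_oqm.isQuotientMap.continuous_iff]
  have : desc F ∘ proj = proj ∘ F := funext fun z => desc_proj h z
  rw [this]
  exact proj_cont.comp hF

namespace Pert

variable {p : Plane → Plane} (P : Pert p)
include P

lemma lip (x y : Plane) : ‖p x - p y‖ ≤ 1 / 2 * ‖x - y‖ :=
  Convex.norm_image_sub_le_of_norm_fderiv_le (𝕜 := ℝ) (fun z _ => P.diff z)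
    (fun z _ => P.bound z) convex_univ (mem_univ y) (mem_univ x)

lemma approx : ApproximatesLinearOn (fun z => z + p z)
    ((ContinuousLinearEquiv.refl ℝ Plane : Plane ≃L[ℝ] Plane) : Plane →L[ℝ] Plane) univ
    (1 / 2 : NNReal) := by
  intro x _ y _
  simp only [ContinuousLinearEquiv.coe_refl, ContinuousLinearMap.coe_id', id_eq]
  have : x + p x - (y + p y) - (x - y) = p x - p y := by abel
  rw [this]
  simpa using P.lip x y

/-- The homeomorphism `z ↦ z + p z` of the plane. -/
noncomputable def ph : Plane ≃ₜ Plane :=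
  ApproximatesLinearOn.toHomeomorph _ P.approx (Or.inr (by
    have : ‖((ContinuousLinearEquiv.refl ℝ Plane).symm : Plane →L[ℝ] Plane)‖₊ = 1 := by
      simp [ContinuousLinearEquiv.refl_symm]
    rw [this]
    rw [inv_one]
    have h : ((1 / 2 : NNReal) : ℝ) < ((1 : NNReal) : ℝ) := by norm_num
    exact_mod_cast h))

lemma ph_apply (z : Plane) : P.ph z = z + p z := rfl

lemma per (z : Plane) (m n : ℤ) : P.ph (z + ((m : ℝ), (n : ℝ))) = P.ph z + ((m : ℝ), (n : ℝ)) := by
  apply equivariant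
  · intro z
    rw [ph_apply, ph_apply, P.per1]; abel
  · intro z
    rw [ph_apply, ph_apply, P.per2]; abel

lemma per_symm (z : Plane) (m n : ℤ) :
    P.ph.symm (z + ((m : ℝ), (n : ℝ))) = P.ph.symm z + ((m : ℝ), (n : ℝ)) := by
  apply P.ph.injective
  rw [P.ph.apply_symm_apply, P.per, P.ph.apply_symm_apply]

/-- The induced homeomorphism of the torus. -/
noncomputable def th : Torus ≃ₜ Torus where
  toFun := desc P.ph
  invFun := desc P.ph.symm
  left_inv := by
    intro w
    obtain ⟨z, rfl⟩ := proj_surj w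
    rw [desc_proj P.per, desc_proj P.per_symm, P.ph.symm_apply_apply]
  right_inv := by
    intro w
    obtain ⟨z, rfl⟩ := proj_surj w
    rw [desc_proj P.per_symm, desc_proj P.per, P.ph.apply_symm_apply]
  continuous_toFun := desc_cont P.ph.continuous P.per
  continuous_invFun := desc_cont P.ph.symm.continuous P.per_symm

lemma th_proj (z : Plane) : P.th (proj z) = proj (P.ph z) := desc_proj P.per z

lemma th_symm_proj (z : Plane) : P.th.symm (proj z) = proj (P.ph.symm z) := desc_proj P.per_symm z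

lemma hasFDerivAt (z : Plane) :
    HasFDerivAt P.ph (ContinuousLinearMap.id ℝ Plane + fderiv ℝ p z) z :=
  (hasFDerivAt_id z).add (P.diff z).hasFDerivAt

lemma exists_equiv (z : Plane) : ∃ e : Plane ≃L[ℝ] Plane,
    (e : Plane →L[ℝ] Plane) = ContinuousLinearMap.id ℝ Plane + fderiv ℝ p z := by
  have h : ‖fderiv ℝ p z‖ < 1 := (P.bound z).trans_lt (by norm_num)
  have hu : IsUnit (ContinuousLinearMap.id ℝ Plane + fderiv ℝ p z) := by
    have := (Units.oneSub (-fderiv ℝ p z) (by rwa [norm_neg])).isUnit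
    rw [Units.val_oneSub, sub_neg_eq_add] at this
    exact this
  obtain ⟨u, hu⟩ := hu
  exact ⟨ContinuousLinearEquiv.unitsEquiv ℝ Plane u, hu⟩

lemma contDiff {n : WithTop ℕ∞} (hp : ContDiff ℝ n p) : ContDiff ℝ n P.ph :=
  contDiff_id.add hp

lemma contDiff_symm {n : WithTop ℕ∞} (hp : ContDiff ℝ n p) : ContDiff ℝ n P.ph.symm := by
  choose e he using P.exists_equiv
  refine Homeomorph.contDiff_symm P.ph (f₀' := e) (fun z => ?_) (P.contDiff hp)
  rw [he]
  exact P.hasFDerivAt z

end Pert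

end Pool.Agent.R191
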