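import Pool.Agent.R191.EyeCalc
import Pool.Agent.R191.TorusDiffeo
import Pool.Agent.Helper179.KSLemmas

/-!
# The map `(x, y) ↦ (x + sin (2πx) cos (2πy) / 8π, y - cos (2πx) sin (2πy) / 8π)` of the two-torus
-/

set_option autoImplicit false

open Set Filter Topology MeasureTheory Function
open scoped ContDiff

namespace Pool.Agent.R191.Eye

open Pool.Agent.TH292.MR (Torus Plane proj IsInvariant)
open Pool.Agent.Helper179.KS

/-! ### Entropy of a measure carried by the fixed points -/

lemma ks_le_zero {X : Type*} [MeasurableSpace X] (ρ : Measure X) [IsProbabilityMeasure ρ] {T : X → X}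
    (h : ∀ᵐ x ∂ρ, T x = x) : ksEntropy ρ T ≤ 0 := by
  rw [ksEntropy_le_iff]
  intro k P _
  set C := shannonEntropy ρ P with hC
  have hC0 : 0 ≤ C := shannonEntropy_nonneg ρ P
  have key : ∀ n : ℕ, 0 < n → shannonEntropy ρ (itinerary T P n) ≤ C := by
    intro n hn
    have hit : ∀ᵐ x ∂ρ, ∀ w : Fin n → Fin k, itinerary T P n x = w ↔ (fun _ => P x) = w := by
      filter_upwards [h] with x hx w
      have : itinerary T P n x = fun _ => P x := by
        funext j
        show P (T^[j] x) = P x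
        rw [iterate_fixed hx]
      rw [this]
    have e1 : ∀ w : Fin n → Fin k, ρ.real (itinerary T P n ⁻¹' {w}) =
        ρ.real ((fun x => (fun _ : Fin n => P x)) ⁻¹' {w}) := by
      intro w
      refine measureReal_congr ?_
      filter_upwards [hit] with x hx
      exact propext (hx w)
    unfold shannonEntropy
    simp_rw [e1]
    have hinj : Injective (fun i : Fin k => (fun _ : Fin n => i)) := by
      intro i j hij
      exact congrFun hij ⟨0, hn⟩
    have e2 : ∑ w : Fin n → Fin k, Real.negMulLog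
        (ρ.real ((fun x => (fun _ : Fin n => P x)) ⁻¹' {w})) =
        ∑ w ∈ Finset.univ.image (fun i : Fin k => (fun _ : Fin n => i)), Real.negMulLog
        (ρ.real ((fun x => (fun _ : Fin n => P x)) ⁻¹' {w})) := by
      symm
      apply Finset.sum_subset (Finset.subset_univ _)
      intro w _ hw
      have : (fun x => (fun _ : Fin n => P x)) ⁻¹' {w} = (∅ : Set X) := by
        apply eq_empty_of_forall_notMem
        intro x hx
        apply hw
        rw [Finset.mem_image]
        exact ⟨P x, Finset.mem_univ _, hx⟩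
      rw [this]
      simp
    rw [e2, Finset.sum_image (fun i _ j _ hij => hinj hij), hC]
    unfold shannonEntropy
    apply le_of_eq
    apply Finset.sum_congr rfl
    intro i _
    congr 2
    ext x
    simp only [mem_preimage, mem_singleton_iff]
    exact ⟨fun hx => hinj hx, fun hx => by rw [hx]⟩
  unfold partitionEntropy
  have : (0 : EReal) = ((0 : ℝ) : EReal) := rfl
  rw [this, limsup_coe_le_iff]
  intro ε hε
  have ht : Tendsto (fun n : ℕ => C / (n : ℝ)) atTop (𝓝 0) :=
    tendsto_const_nhds.div_atTop tendsto_natCast_atTop_atTop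
  filter_upwards [ht.eventually (gt_mem_nhds hε), eventually_gt_atTop 0] with n hn hn0
  rw [zero_add]
  exact (div_le_div_of_nonneg_right (key n hn0) (Nat.cast_nonneg n)).trans hn.le

lemma ae_eq_of_mono {X : Type*} [MeasurableSpace X] {ρ : Measure X} [IsProbabilityMeasure ρ] {T : X → X}
    (hT : MeasurePreserving T ρ ρ) {M : X → ℝ} (hM : Measurable M) {C : ℝ} (hb : ∀ x, |M x| ≤ C)
    (hle : ∀ x, M x ≤ M (T x)) : ∀ᵐ x ∂ρ, M (T x) = M x := by
  have hi : Integrable M ρ := Integrable.of_bound hM.aestronglyMeasurable C (ae_of_all _ hb)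
  have hi2 : Integrable (fun x => M (T x)) ρ := hT.integrable_comp_of_integrable hi
  have h0 : ∫ x, (M (T x) - M x) ∂ρ = 0 := by
    rw [integral_sub hi2 hi]
    have : ∫ x, M (T x) ∂ρ = ∫ x, M x ∂ρ := by
      have h1 := integral_map (μ := ρ) (φ := T) hT.measurable.aemeasurable (f := M)
        (by rw [hT.map_eq]; exact hM.aestronglyMeasurable)
      rw [hT.map_eq] at h1
      exact h1.symm
    rw [this, sub_self]
  have h1 := (integral_eq_zero_iff_of_nonneg_ae (ae_of_all _ fun x => sub_nonneg.2 (hle x))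
    (hi2.sub hi)).1 h0
  filter_upwards [h1] with x hx
  have : M (T x) - M x = 0 := hx
  linarith

/-! ### The map -/

/-- `2 π x`. -/
noncomputable def ang (x : ℝ) : ℝ := 2 * Real.pi * x

/-- The displacement. -/
noncomputable def pp (z : Plane) : Plane :=
  (Real.sin (ang z.1) * Real.cos (ang z.2) / (8 * Real.pi),
    -(Real.cos (ang z.1) * Real.sin (ang z.2) / (8 * Real.pi)))

/-- The linear map with matrix `(α, -β; β, -α)`. -/
noncomputable def LM (α β : ℝ) : Plane →L[ℝ] Plane :=
  (α • ContinuousLinearMap.fst ℝ ℝ ℝ - β • ContinuousLinearMap.snd ℝ ℝ ℝ).prod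
    (β • ContinuousLinearMap.fst ℝ ℝ ℝ - α • ContinuousLinearMap.snd ℝ ℝ ℝ)

lemma LM_apply (α β : ℝ) (v : Plane) : LM α β v = (α * v.1 - β * v.2, β * v.1 - α * v.2) := rfl

lemma LM_norm (α β : ℝ) : ‖LM α β‖ ≤ |α| + |β| := by
  refine ContinuousLinearMap.opNorm_le_bound _ (by positivity) fun v => ?_
  rw [LM_apply, Prod.norm_def]
  have h1 : |v.1| ≤ ‖v‖ := norm_fst_le v
  have h2 : |v.2| ≤ ‖v‖ := norm_snd_le v
  apply max_le
  · rw [Real.norm_eq_abs]
    calc |α * v.1 - β * v.2| ≤ |α * v.1| + |β * v.2| := abs_sub _ _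
      _ = |α| * |v.1| + |β| * |v.2| := by rw [abs_mul, abs_mul]
      _ ≤ |α| * ‖v‖ + |β| * ‖v‖ := by gcongr
      _ = (|α| + |β|) * ‖v‖ := by ring
  · rw [Real.norm_eq_abs]
    calc |β * v.1 - α * v.2| ≤ |β * v.1| + |α * v.2| := abs_sub _ _
      _ = |β| * |v.1| + |α| * |v.2| := by rw [abs_mul, abs_mul]
      _ ≤ |β| * ‖v‖ + |α| * ‖v‖ := by gcongr
      _ = (|α| + |β|) * ‖v‖ := by ring

lemma pp_deriv (z : Plane) : HasFDerivAt pp
    (LM (Real.cos (ang z.1) * Real.cos (ang z.2) / 4) (Real.sin (ang z.1) * Real.sin (ang z.2) / 4)) z := by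
  have hpi := Real.pi_ne_zero
  have h1 : HasFDerivAt (fun z : Plane => ang z.1) ((2 * Real.pi) • ContinuousLinearMap.fst ℝ ℝ ℝ) z :=
    (hasFDerivAt_fst (𝕜 := ℝ) (p := z)).const_mul _
  have h2 : HasFDerivAt (fun z : Plane => ang z.2) ((2 * Real.pi) • ContinuousLinearMap.snd ℝ ℝ ℝ) z :=
    (hasFDerivAt_snd (𝕜 := ℝ) (p := z)).const_mul _
  have a1 := ((h1.sin.mul h2.cos).mul_const (8 * Real.pi)⁻¹).prodMk
    ((h1.cos.mul h2.sin).mul_const (8 * Real.pi)⁻¹).neg
  refine (a1.congr_fderiv ?_)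
  ext v
  · simp [LM]; field_simp; ring
  · simp [LM]; field_simp; ring
  · simp [LM]; field_simp; ring
  · simp [LM]; field_simp; ring

lemma pert : Pert pp where
  per1 z := by
    have e : ang (z.1 + 1) = ang z.1 + 2 * Real.pi := by unfold ang; ring
    simp [pp, e, Real.sin_add_two_pi, Real.cos_add_two_pi]
  per2 z := by
    have e : ang (z.2 + 1) = ang z.2 + 2 * Real.pi := by unfold ang; ring
    simp [pp, e, Real.sin_add_two_pi, Real.cos_add_two_pi]
  diff z := (pp_deriv z).differentiableAt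
  bound z := by
    rw [(pp_deriv z).fderiv]
    refine (LM_norm _ _).trans ?_
    rw [abs_div, abs_div, abs_mul, abs_mul]
    have h1 := Real.abs_cos_le_one (ang z.1)
    have h2 := Real.abs_cos_le_one (ang z.2)
    have h3 := Real.abs_sin_le_one (ang z.1)
    have h4 := Real.abs_sin_le_one (ang z.2)
    have h5 : |Real.cos (ang z.1)| * |Real.cos (ang z.2)| ≤ 1 * 1 :=
      mul_le_mul h1 h2 (abs_nonneg _) zero_le_one
    have h6 : |Real.sin (ang z.1)| * |Real.sin (ang z.2)| ≤ 1 * 1 :=
      mul_le_mul h3 h4 (abs_nonneg _) zero_le_one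
    rw [show |(4 : ℝ)| = 4 by norm_num]
    linarith

lemma pp_analytic : ContDiff ℝ ω pp := by
  have h1 : ContDiff ℝ ω fun z : Plane => ang z.1 := contDiff_const.mul contDiff_fst
  have h2 : ContDiff ℝ ω fun z : Plane => ang z.2 := contDiff_const.mul contDiff_snd
  exact ((h1.sin.mul h2.cos).div_const _).prodMk (((h1.cos.mul h2.sin).div_const _).neg)

/-- The map and its lift. -/
noncomputable def ff : Torus ≃ₜ Torus := pert.th
noncomputable def FF : Plane → Plane := pert.ph
noncomputable def GG : Plane → Plane := pert.ph.symm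

lemma ff_proj (z : Plane) : ff (proj z) = proj (FF z) := pert.th_proj z

lemma FF_fst (z : Plane) :
    ang (FF z).1 = ang z.1 + Real.sin (ang z.1) * (Real.cos (ang z.2) / 4) := by
  have hpi := Real.pi_ne_zero
  show ang (z.1 + Real.sin (ang z.1) * Real.cos (ang z.2) / (8 * Real.pi)) = _
  have : ∀ t, ang (z.1 + t) = ang z.1 + 2 * Real.pi * t := fun t => by unfold ang; ring
  rw [this]
  field_simp
  ring

lemma FF_snd (z : Plane) :
    ang (FF z).2 = ang z.2 + Real.sin (ang z.2) * (-(Real.cos (ang z.1) / 4)) := by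
  have hpi := Real.pi_ne_zero
  show ang (z.2 + -(Real.cos (ang z.1) * Real.sin (ang z.2) / (8 * Real.pi))) = _
  have : ∀ t, ang (z.2 + t) = ang z.2 + 2 * Real.pi * t := fun t => by unfold ang; ring
  rw [this]
  field_simp
  ring

/-! ### Functions on the torus -/

/-- The function on the torus with periodic lift `φ`. -/
noncomputable def dn (φ : Plane → ℝ) (w : Torus) : ℝ := φ (surjInv proj_surj w)

lemma dn_proj {φ : Plane → ℝ} (h : ∀ z (m n : ℤ), φ (z + ((m : ℝ), (n : ℝ))) = φ z) (z : Plane) :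
    dn φ (proj z) = φ z := by
  unfold dn
  obtain ⟨m, n, hmn⟩ := proj_eq.1 (surjInv_eq proj_surj (proj z))
  conv_rhs => rw [hmn, h]

lemma dn_cont {φ : Plane → ℝ} (hφ : Continuous φ)
    (h : ∀ z (m n : ℤ), φ (z + ((m : ℝ), (n : ℝ))) = φ z) : Continuous (dn φ) := by
  rw [proj_oqm.isQuotientMap.continuous_iff]
  have : dn φ ∘ proj = φ := funext fun z => dn_proj h z
  rw [this]
  exact hφ

lemma ang_add_int (x : ℝ) (m : ℤ) : ang (x + m) = ang x + m * (2 * Real.pi) := by unfold ang; ring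

noncomputable def sxL (z : Plane) : ℝ := Real.sin (ang z.1)
noncomputable def syL (z : Plane) : ℝ := Real.sin (ang z.2)
noncomputable def cxL (z : Plane) : ℝ := Real.cos (ang z.1)
noncomputable def cyL (z : Plane) : ℝ := Real.cos (ang z.2)

lemma ang_cont : Continuous ang := by unfold ang; fun_prop

lemma sx_per (z : Plane) (m n : ℤ) : sxL (z + ((m : ℝ), (n : ℝ))) = sxL z := by
  unfold sxL
  rw [Prod.fst_add, ang_add_int, Real.sin_add_int_mul_two_pi]
lemma sy_per (z : Plane) (m n : ℤ) : syL (z + ((m : ℝ), (n : ℝ))) = syL z := by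
  unfold syL
  rw [Prod.snd_add, ang_add_int, Real.sin_add_int_mul_two_pi]
lemma cx_per (z : Plane) (m n : ℤ) : cxL (z + ((m : ℝ), (n : ℝ))) = cxL z := by
  unfold cxL
  rw [Prod.fst_add, ang_add_int, Real.cos_add_int_mul_two_pi]
lemma cy_per (z : Plane) (m n : ℤ) : cyL (z + ((m : ℝ), (n : ℝ))) = cyL z := by
  unfold cyL
  rw [Prod.snd_add, ang_add_int, Real.cos_add_int_mul_two_pi]

noncomputable def sx : Torus → ℝ := dn sxL
noncomputable def sy : Torus → ℝ := dn syL
noncomputable def cx : Torus → ℝ := dn cxL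
noncomputable def cy : Torus → ℝ := dn cyL

lemma sx_proj (z : Plane) : sx (proj z) = Real.sin (ang z.1) := dn_proj sx_per z
lemma sy_proj (z : Plane) : sy (proj z) = Real.sin (ang z.2) := dn_proj sy_per z
lemma cx_proj (z : Plane) : cx (proj z) = Real.cos (ang z.1) := dn_proj cx_per z
lemma cy_proj (z : Plane) : cy (proj z) = Real.cos (ang z.2) := dn_proj cy_per z

lemma sx_cont : Continuous sx :=
  dn_cont (Real.continuous_sin.comp (ang_cont.comp continuous_fst)) sx_per
lemma sy_cont : Continuous sy :=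
  dn_cont (Real.continuous_sin.comp (ang_cont.comp continuous_snd)) sy_per
lemma cx_cont : Continuous cx :=
  dn_cont (Real.continuous_cos.comp (ang_cont.comp continuous_fst)) cx_per
lemma cy_cont : Continuous cy :=
  dn_cont (Real.continuous_cos.comp (ang_cont.comp continuous_snd)) cy_per

lemma sq1 (w : Torus) : sx w ^ 2 + cx w ^ 2 = 1 := by
  obtain ⟨z, rfl⟩ := proj_surj w
  rw [sx_proj, cx_proj, Real.sin_sq_add_cos_sq]
lemma sq2 (w : Torus) : sy w ^ 2 + cy w ^ 2 = 1 := by
  obtain ⟨z, rfl⟩ := proj_surj w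
  rw [sy_proj, cy_proj, Real.sin_sq_add_cos_sq]

/-- Vanishing of the sine is invariant. -/
lemma sin_zero_iff {X u : ℝ} (hu : |u| ≤ 1 / 4) :
    Real.sin (X + Real.sin X * u) = 0 ↔ Real.sin X = 0 := by
  constructor
  · intro h
    rw [sin_eq] at h
    rcases mul_eq_zero.1 h with h | h
    · exact h
    · exfalso
      have ha : |u * Real.sin X| ≤ 1 / 4 := by
        rw [abs_mul]
        exact (mul_le_mul hu (Real.abs_sin_le_one X) (abs_nonneg _) (by norm_num)).trans (by norm_num)
      have h1 := (q_bd (Real.abs_cos_le_one X) hu ha).2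
      have h2 : |Real.cos X * u| ≤ 1 / 4 := by
        rw [abs_mul]
        exact (mul_le_mul (Real.abs_cos_le_one X) hu (abs_nonneg _) (by norm_num)).trans (by norm_num)
      have h3 := (abs_le.1 h2).1
      have h4 : (u * Real.sin X) ^ 2 ≤ 1 / 16 := by
        have := sq_le_sq' (by linarith [abs_nonneg (u * Real.sin X)]) ha
        rw [sq_abs] at this; linarith
      rw [h] at h1
      linarith
  · intro h
    rw [h, zero_mul, add_zero, h]

lemma u_bd (x : ℝ) : |Real.cos x / 4| ≤ 1 / 4 := by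
  rw [abs_div]; norm_num; linarith [Real.abs_cos_le_one x]
lemma v_bd (x : ℝ) : |-(Real.cos x / 4)| ≤ 1 / 4 := by
  rw [abs_neg]; exact u_bd x

lemma sx_ff (w : Torus) : sx (ff w) = 0 ↔ sx w = 0 := by
  obtain ⟨z, rfl⟩ := proj_surj w
  rw [ff_proj, sx_proj, sx_proj, FF_fst]
  exact sin_zero_iff (u_bd _)
lemma sy_ff (w : Torus) : sy (ff w) = 0 ↔ sy w = 0 := by
  obtain ⟨z, rfl⟩ := proj_surj w
  rw [ff_proj, sy_proj, sy_proj, FF_snd]
  exact sin_zero_iff (v_bd _)

/-- On `sin Y = 0`, the cosine of `Y` does not change. -/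
lemma cos_same {X u : ℝ} (h : Real.sin X = 0) : Real.cos (X + Real.sin X * u) = Real.cos X := by
  rw [h, zero_mul, add_zero]

lemma cx_ff {w : Torus} (h : sx w = 0) : cx (ff w) = cx w := by
  obtain ⟨z, rfl⟩ := proj_surj w
  rw [sx_proj] at h
  rw [ff_proj, cx_proj, cx_proj, FF_fst, cos_same h]
lemma cy_ff {w : Torus} (h : sy w = 0) : cy (ff w) = cy w := by
  obtain ⟨z, rfl⟩ := proj_surj w
  rw [sy_proj] at h
  rw [ff_proj, cy_proj, cy_proj, FF_snd, cos_same h]

/-- One-dimensional dynamics: `cos` is monotone along `X ↦ X + u sin X`. -/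
lemma cos_mono {X u : ℝ} (hu : |u| ≤ 1 / 4) :
    u * (Real.cos (X + Real.sin X * u) - Real.cos X) ≤ -(1 / 2) * u ^ 2 * Real.sin X ^ 2 := by
  set s := Real.sin X with hs
  set c := Real.cos X with hc
  have h1 : |s| ≤ 1 := Real.abs_sin_le_one X
  have h2 : |c| ≤ 1 := Real.abs_cos_le_one X
  have ha : |u * s| ≤ 1 / 4 := by
    rw [abs_mul]
    exact (mul_le_mul hu h1 (abs_nonneg _) (by norm_num)).trans (by norm_num)
  have b1 := cos_le ha
  have b2 := le_cos (u * s)
  have b3 := sinc_bd ha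
  have e : Real.cos (X + s * u) - c = c * (Real.cos (u * s) - 1) - s * Real.sin (u * s) := by
    rw [Real.cos_add, mul_comm s u]; ring
  have e2 : Real.sin (u * s) = u * s * Real.sinc (u * s) := by
    by_cases h0 : u * s = 0
    · rw [h0, Real.sin_zero, zero_mul]
    · rw [Real.sinc_of_ne_zero h0, ← mul_div_assoc, mul_comm (u * s), mul_div_assoc, div_self h0,
        mul_one]
  rw [e, e2]
  have e3 : u * (c * (Real.cos (u * s) - 1) - s * (u * s * Real.sinc (u * s))) =
      -(u ^ 2 * s ^ 2) + (u * c) * (Real.cos (u * s) - 1) - u ^ 2 * s ^ 2 * (Real.sinc (u * s) - 1) := by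
    ring
  rw [e3]
  have k1 : |(u * c) * (Real.cos (u * s) - 1)| ≤ 1 / 4 * (1 / 2 * (u * s) ^ 2) := by
    rw [abs_mul, abs_mul]
    have k2 : |Real.cos (u * s) - 1| ≤ 1 / 2 * (u * s) ^ 2 := by
      rw [abs_le]; constructor <;> linarith [sq_nonneg (u * s)]
    have k3 : |u| * |c| ≤ 1 / 4 * 1 := mul_le_mul hu h2 (abs_nonneg _) (by norm_num)
    exact mul_le_mul (by linarith) k2 (abs_nonneg _) (by norm_num)
  have k4 : (u * s) ^ 2 ≤ 1 / 16 := by
    have := sq_le_sq' (by linarith [abs_nonneg (u * s)]) ha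
    rw [sq_abs] at this; linarith
  have k5 : |Real.sinc (u * s) - 1| ≤ 1 / 50 := by linarith
  have k6 := abs_le.1 k5
  have k7 := abs_le.1 k1
  have k8 : 0 ≤ u ^ 2 * s ^ 2 := by positivity
  have k9 : -(1 / 50) * (u ^ 2 * s ^ 2) ≤ u ^ 2 * s ^ 2 * (Real.sinc (u * s) - 1) := by
    have := mul_le_mul_of_nonneg_left k6.1 k8
    linarith
  have k10 : (u * s) ^ 2 = u ^ 2 * s ^ 2 := by ring
  rw [k10] at k7
  linarith [k7.2]

/-! ### Invariant measures -/

/-- The set of the fixed points. -/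
def Fix : Set Torus := {w | (sx w = 0 ∧ sy w = 0) ∨ (cx w = 0 ∧ cy w = 0)}

lemma ae_fix {ρ : Measure Torus} (h : IsInvariant ff ρ) : ∀ᵐ w ∂ρ, w ∈ Fix := by
  have := h.prob
  -- step 1
  have s1 : ∀ᵐ w ∂ρ, sx w = 0 ∨ sy w = 0 ∨ (cx w = 0 ∧ cy w = 0) := by
    have hm : Measurable fun w => -(sx w * sy w) ^ 2 :=
      ((sx_cont.mul sy_cont).pow 2).neg.measurable
    have hb : ∀ w, |-(sx w * sy w) ^ 2| ≤ 1 := by
      intro w
      rw [abs_neg, abs_pow, abs_mul]
      have h1 : |sx w| ≤ 1 := by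
        rw [← sq_le_one_iff_abs_le_one]; nlinarith [sq1 w, sq_nonneg (cx w)]
      have h2 : |sy w| ≤ 1 := by
        rw [← sq_le_one_iff_abs_le_one]; nlinarith [sq2 w, sq_nonneg (cy w)]
      have h3 : |sx w| * |sy w| ≤ 1 * 1 := mul_le_mul h1 h2 (abs_nonneg _) zero_le_one
      have h4 : 0 ≤ |sx w| * |sy w| := by positivity
      nlinarith
    have hH : ∀ z : Plane, sx (ff (proj z)) * sy (ff (proj z)) =
        sx (proj z) * sy (proj z) * Q (ang z.1) (ang z.2) := by
      intro z
      rw [ff_proj, sx_proj, sy_proj, sx_proj, sy_proj, FF_fst, FF_snd, H_eq]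
    have hle : ∀ w, -(sx w * sy w) ^ 2 ≤ -(sx (ff w) * sy (ff w)) ^ 2 := by
      intro w
      obtain ⟨z, rfl⟩ := proj_surj w
      rw [hH]
      have h1 := Q_pos (ang z.1) (ang z.2)
      have h2 := Q_le (ang z.1) (ang z.2)
      have h3 : Q (ang z.1) (ang z.2) ≤ 1 := by
        nlinarith [sq_nonneg (Real.cos (ang z.1)), sq_nonneg (Real.cos (ang z.2))]
      have h4 : Q (ang z.1) (ang z.2) ^ 2 ≤ 1 := by nlinarith
      rw [mul_pow (sx (proj z) * sy (proj z))]
      nlinarith [sq_nonneg (sx (proj z) * sy (proj z))]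
    filter_upwards [ae_eq_of_mono h.inv hm hb hle] with w hw
    obtain ⟨z, rfl⟩ := proj_surj w
    rw [hH] at hw
    have h1 := Q_pos (ang z.1) (ang z.2)
    have h2 := Q_le (ang z.1) (ang z.2)
    by_contra hcon
    push Not at hcon
    obtain ⟨n1, n2, n3⟩ := hcon
    have hne : 0 < (sx (proj z) * sy (proj z)) ^ 2 := by positivity
    have hq : Q (ang z.1) (ang z.2) ^ 2 = 1 := by
      rw [mul_pow (sx (proj z) * sy (proj z))] at hw
      have : (sx (proj z) * sy (proj z)) ^ 2 * (Q (ang z.1) (ang z.2) ^ 2 - 1) = 0 := by linarith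
      rcases mul_eq_zero.1 this with h | h
      · exact absurd h hne.ne'
      · linarith
    have hq1 : Q (ang z.1) (ang z.2) = 1 := by nlinarith
    rw [hq1] at h2
    have h3 : Real.cos (ang z.1) ^ 2 = 0 := by
      nlinarith [sq_nonneg (Real.cos (ang z.1)), sq_nonneg (Real.cos (ang z.2))]
    have h4 : Real.cos (ang z.2) ^ 2 = 0 := by
      nlinarith [sq_nonneg (Real.cos (ang z.1)), sq_nonneg (Real.cos (ang z.2))]
    refine n3 ?_ ?_
    · rw [cx_proj]; exact pow_eq_zero_iff (two_ne_zero) |>.1 h3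
    · rw [cy_proj]; exact pow_eq_zero_iff (two_ne_zero) |>.1 h4
  -- step 2: on `sx = 0`
  have s2 : ∀ᵐ w ∂ρ, sx w = 0 → sy w = 0 := by
    classical
    have hZ : MeasurableSet {w | sx w = 0} := (isClosed_singleton.preimage sx_cont).measurableSet
    have hm : Measurable ({w | sx w = 0}.indicator fun w => cx w * cy w) :=
      (cx_cont.mul cy_cont).measurable.indicator hZ
    have hcy : ∀ w, |cy w| ≤ 1 := fun w => by
      rw [← sq_le_one_iff_abs_le_one]; nlinarith [sq2 w, sq_nonneg (sy w)]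
    have hcx : ∀ w, |cx w| ≤ 1 := fun w => by
      rw [← sq_le_one_iff_abs_le_one]; nlinarith [sq1 w, sq_nonneg (sx w)]
    have hb : ∀ w, |({w | sx w = 0}.indicator fun w => cx w * cy w) w| ≤ 1 := by
      intro w
      by_cases hw : sx w = 0
      · rw [indicator_of_mem (show w ∈ {w | sx w = 0} from hw), abs_mul]
        exact (mul_le_mul (hcx w) (hcy w) (abs_nonneg _) zero_le_one).trans (by norm_num)
      · rw [indicator_of_notMem (show w ∉ {w | sx w = 0} from hw)]; norm_num
    have key : ∀ w, sx w = 0 → (1 / 8) * sy w ^ 2 ≤ cx (ff w) * cy (ff w) - cx w * cy w := by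
      intro w hw
      rw [cx_ff hw]
      have hc1 : cx w ^ 2 = 1 := by have := sq1 w; rw [hw] at this; linarith
      obtain ⟨z, rfl⟩ := proj_surj w
      rw [cx_proj] at hc1 ⊢
      rw [ff_proj, cy_proj, cy_proj, sy_proj, FF_snd]
      have := cos_mono (X := ang z.2) (v_bd (ang z.1))
      have e : (-(Real.cos (ang z.1) / 4)) ^ 2 = 1 / 16 := by
        rw [neg_sq, div_pow, hc1]; norm_num
      rw [e] at this
      linarith
    have hle : ∀ w, ({w | sx w = 0}.indicator fun w => cx w * cy w) w ≤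
        ({w | sx w = 0}.indicator fun w => cx w * cy w) (ff w) := by
      intro w
      by_cases hw : sx w = 0
      · have hw' : sx (ff w) = 0 := (sx_ff w).2 hw
        rw [indicator_of_mem (show w ∈ {w | sx w = 0} from hw),
          indicator_of_mem (show ff w ∈ {w | sx w = 0} from hw')]
        have := key w hw
        nlinarith [sq_nonneg (sy w)]
      · have hw' : sx (ff w) ≠ 0 := fun h => hw ((sx_ff w).1 h)
        rw [indicator_of_notMem (show w ∉ {w | sx w = 0} from hw),
          indicator_of_notMem (show ff w ∉ {w | sx w = 0} from hw')]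
    filter_upwards [ae_eq_of_mono h.inv hm hb hle] with w hw h0
    have hw' : sx (ff w) = 0 := (sx_ff w).2 h0
    rw [indicator_of_mem (show w ∈ {w | sx w = 0} from h0),
      indicator_of_mem (show ff w ∈ {w | sx w = 0} from hw')] at hw
    have := key w h0
    have h2 : sy w ^ 2 ≤ 0 := by linarith
    exact pow_eq_zero_iff (two_ne_zero) |>.1 (le_antisymm h2 (sq_nonneg _))
  have s3 : ∀ᵐ w ∂ρ, sy w = 0 → sx w = 0 := by
    classical
    have hZ : MeasurableSet {w | sy w = 0} := (isClosed_singleton.preimage sy_cont).measurableSet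
    have hm : Measurable ({w | sy w = 0}.indicator fun w => -(cx w * cy w)) :=
      (cx_cont.mul cy_cont).neg.measurable.indicator hZ
    have hcy : ∀ w, |cy w| ≤ 1 := fun w => by
      rw [← sq_le_one_iff_abs_le_one]; nlinarith [sq2 w, sq_nonneg (sy w)]
    have hcx : ∀ w, |cx w| ≤ 1 := fun w => by
      rw [← sq_le_one_iff_abs_le_one]; nlinarith [sq1 w, sq_nonneg (sx w)]
    have hb : ∀ w, |({w | sy w = 0}.indicator fun w => -(cx w * cy w)) w| ≤ 1 := by
      intro w
      by_cases hw : sy w = 0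
      · rw [indicator_of_mem (show w ∈ {w | sy w = 0} from hw), abs_neg, abs_mul]
        exact (mul_le_mul (hcx w) (hcy w) (abs_nonneg _) zero_le_one).trans (by norm_num)
      · rw [indicator_of_notMem (show w ∉ {w | sy w = 0} from hw)]; norm_num
    have key : ∀ w, sy w = 0 → (1 / 8) * sx w ^ 2 ≤ -(cx (ff w) * cy (ff w)) - -(cx w * cy w) := by
      intro w hw
      rw [cy_ff hw]
      have hc1 : cy w ^ 2 = 1 := by have := sq2 w; rw [hw] at this; linarith
      obtain ⟨z, rfl⟩ := proj_surj w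
      rw [cy_proj] at hc1 ⊢
      rw [ff_proj, cx_proj, cx_proj, sx_proj, FF_fst]
      have := cos_mono (X := ang z.1) (u_bd (ang z.2))
      have e : (Real.cos (ang z.2) / 4) ^ 2 = 1 / 16 := by
        rw [div_pow, hc1]; norm_num
      rw [e] at this
      linarith
    have hle : ∀ w, ({w | sy w = 0}.indicator fun w => -(cx w * cy w)) w ≤
        ({w | sy w = 0}.indicator fun w => -(cx w * cy w)) (ff w) := by
      intro w
      by_cases hw : sy w = 0
      · have hw' : sy (ff w) = 0 := (sy_ff w).2 hw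
        rw [indicator_of_mem (show w ∈ {w | sy w = 0} from hw),
          indicator_of_mem (show ff w ∈ {w | sy w = 0} from hw')]
        have := key w hw
        nlinarith [sq_nonneg (sx w)]
      · have hw' : sy (ff w) ≠ 0 := fun h => hw ((sy_ff w).1 h)
        rw [indicator_of_notMem (show w ∉ {w | sy w = 0} from hw),
          indicator_of_notMem (show ff w ∉ {w | sy w = 0} from hw')]
    filter_upwards [ae_eq_of_mono h.inv hm hb hle] with w hw h0
    have hw' : sy (ff w) = 0 := (sy_ff w).2 h0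
    rw [indicator_of_mem (show w ∈ {w | sy w = 0} from h0),
      indicator_of_mem (show ff w ∈ {w | sy w = 0} from hw')] at hw
    have := key w h0
    have h2 : sx w ^ 2 ≤ 0 := by linarith
    exact pow_eq_zero_iff (two_ne_zero) |>.1 (le_antisymm h2 (sq_nonneg _))
  filter_upwards [s1, s2, s3] with w h1 h2 h3
  rcases h1 with h1 | h1 | h1
  · exact Or.inl ⟨h1, h2 h1⟩
  · exact Or.inl ⟨h3 h1, h1⟩
  · exact Or.inr h1

lemma FF_fix {z : Plane} (h : proj z ∈ Fix) : FF z = z := by
  show z + pp z = z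
  have : pp z = 0 := by
    rcases h with ⟨h1, h2⟩ | ⟨h1, h2⟩
    · rw [sx_proj] at h1; rw [sy_proj] at h2
      simp [pp, h1, h2]
    · rw [cx_proj] at h1; rw [cy_proj] at h2
      simp [pp, h1, h2]
  rw [this, add_zero]

lemma ff_fix {w : Torus} (h : w ∈ Fix) : ff w = w := by
  obtain ⟨z, rfl⟩ := proj_surj w
  rw [ff_proj, FF_fix h]

end Pool.Agent.R191.Eye
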