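import Mathlib

/-!
# A trigonometric inequality

`sin (X + sin X cos Y / 4) sin (Y - cos X sin Y / 4) = Q sin X sin Y` with `0 < Q ≤ 1`, and `Q < 1` unless
`cos X = cos Y = 0`.
-/

set_option autoImplicit false

namespace Pool.Agent.R191.Eye

lemma cos_le {a : ℝ} (ha : |a| ≤ 1 / 4) : Real.cos a - 1 ≤ -(49 / 100) * a ^ 2 := by
  have h := (abs_le.1 (Real.cos_bound (x := a) (by linarith))).2
  have h2 : |a| ^ 4 = a ^ 2 * a ^ 2 := by
    rw [show |a| ^ 4 = |a| ^ 2 * |a| ^ 2 by ring, sq_abs]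
  have h3 : a ^ 2 ≤ 1 / 16 := by
    have := sq_le_sq' (by linarith [abs_nonneg a]) ha
    rw [sq_abs] at this
    linarith
  rw [h2] at h
  nlinarith [sq_nonneg a]

lemma le_cos (a : ℝ) : -(1 / 2) * a ^ 2 ≤ Real.cos a - 1 := by
  have := Real.one_sub_sq_div_two_le_cos (x := a)
  linarith

lemma sinc_bd {a : ℝ} (ha : |a| ≤ 1 / 4) : |Real.sinc a - 1| ≤ 18 / 100 * a ^ 2 := by
  by_cases h0 : a = 0
  · simp [h0]
  have h := Real.sin_bound (x := a) (by linarith)
  have hp : 0 < |a| := abs_pos.2 h0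
  have e : Real.sinc a - 1 = (Real.sin a - a) / a := by
    rw [Real.sinc_of_ne_zero h0]; field_simp
  rw [e, abs_div, div_le_iff₀ hp]
  have h1 : |Real.sin a - a| ≤ |Real.sin a - (a - a ^ 3 / 6)| + |a ^ 3 / 6| := by
    have : Real.sin a - a = (Real.sin a - (a - a ^ 3 / 6)) + (-(a ^ 3 / 6)) := by ring
    rw [this]
    refine (abs_add_le _ _).trans ?_
    rw [abs_neg]
  have h2 : |a ^ 3 / 6| = |a| ^ 3 / 6 := by
    rw [abs_div, abs_pow]; norm_num
  have h3 : |a| ^ 5 ≤ |a| ^ 3 * (1 / 16) := by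
    have e5 : |a| ^ 5 = |a| ^ 3 * |a| ^ 2 := by ring
    rw [e5]
    refine mul_le_mul_of_nonneg_left ?_ (by positivity)
    nlinarith [abs_nonneg a]
  have h4 : a ^ 2 * |a| = |a| ^ 3 := by rw [← sq_abs]; ring
  calc |Real.sin a - a| ≤ |a| ^ 5 / 100 + |a| ^ 3 / 6 := by rw [← h2]; linarith
    _ ≤ 18 / 100 * a ^ 2 * |a| := by
        rw [mul_assoc, h4]
        have : 0 ≤ |a| ^ 3 := by positivity
        linarith

/-- The factor. -/
noncomputable def q (c u a : ℝ) : ℝ := Real.cos a + c * (u * Real.sinc a)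

lemma sin_eq {X u : ℝ} : Real.sin (X + Real.sin X * u) =
    Real.sin X * q (Real.cos X) u (u * Real.sin X) := by
  have h : Real.sin (Real.sin X * u) = Real.sin X * (u * Real.sinc (u * Real.sin X)) := by
    by_cases h0 : u * Real.sin X = 0
    · rw [h0, mul_comm, h0]
      rw [Real.sinc_zero, mul_one, mul_comm (Real.sin X) u, h0, Real.sin_zero]
    · rw [Real.sinc_of_ne_zero h0, mul_comm (Real.sin X) u]
      have h1 : u ≠ 0 := left_ne_zero_of_mul h0
      have h2 : Real.sin X ≠ 0 := right_ne_zero_of_mul h0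
      field_simp
  rw [Real.sin_add, h, q, mul_comm (Real.sin X) u]
  ring

lemma q_bd {c u a : ℝ} (hc : |c| ≤ 1) (hu : |u| ≤ 1 / 4) (ha : |a| ≤ 1 / 4) :
    q c u a - 1 - c * u ≤ -(44 / 100) * a ^ 2 ∧ -(55 / 100) * a ^ 2 ≤ q c u a - 1 - c * u := by
  have h1 := cos_le ha
  have h2 := le_cos a
  have h3 := sinc_bd ha
  have e : q c u a - 1 - c * u = (Real.cos a - 1) + c * (u * (Real.sinc a - 1)) := by
    unfold q; ring
  have h4 : |c * (u * (Real.sinc a - 1))| ≤ 1 * (1 / 4 * (18 / 100 * a ^ 2)) := by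
    rw [abs_mul, abs_mul]
    gcongr
  have h5 := abs_le.1 h4
  rw [e]
  constructor <;> linarith [h5.1, h5.2, sq_nonneg a]

/-- The product of the two factors. -/
noncomputable def Q (X Y : ℝ) : ℝ :=
  q (Real.cos X) (Real.cos Y / 4) (Real.cos Y / 4 * Real.sin X) *
    q (Real.cos Y) (-(Real.cos X / 4)) (-(Real.cos X / 4) * Real.sin Y)

lemma H_eq (X Y : ℝ) : Real.sin (X + Real.sin X * (Real.cos Y / 4)) *
    Real.sin (Y + Real.sin Y * (-(Real.cos X / 4))) = Real.sin X * Real.sin Y * Q X Y := by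
  rw [sin_eq, sin_eq, Q]; ring

lemma Q_pos (X Y : ℝ) : 0 < Q X Y := by
  have hc := Real.abs_cos_le_one X
  have hC := Real.abs_cos_le_one Y
  have hs := Real.abs_sin_le_one X
  have hS := Real.abs_sin_le_one Y
  have hu : |Real.cos Y / 4| ≤ 1 / 4 := by rw [abs_div]; norm_num; linarith
  have hv : |-(Real.cos X / 4)| ≤ 1 / 4 := by rw [abs_neg, abs_div]; norm_num; linarith
  have ha : |Real.cos Y / 4 * Real.sin X| ≤ 1 / 4 := by
    rw [abs_mul]
    exact (mul_le_mul hu hs (abs_nonneg _) (by norm_num)).trans (by norm_num)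
  have hb : |-(Real.cos X / 4) * Real.sin Y| ≤ 1 / 4 := by
    rw [abs_mul]
    exact (mul_le_mul hv hS (abs_nonneg _) (by norm_num)).trans (by norm_num)
  have h1 := (q_bd hc hu ha).2
  have h2 := (q_bd hC hv hb).2
  have ha2 : (Real.cos Y / 4 * Real.sin X) ^ 2 ≤ 1 / 16 := by
    have := sq_le_sq' (by linarith [abs_nonneg (Real.cos Y / 4 * Real.sin X)]) ha
    rw [sq_abs] at this; linarith
  have hb2 : (-(Real.cos X / 4) * Real.sin Y) ^ 2 ≤ 1 / 16 := by
    have := sq_le_sq' (by linarith [abs_nonneg (-(Real.cos X / 4) * Real.sin Y)]) hb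
    rw [sq_abs] at this; linarith
  have hm : |Real.cos X * (Real.cos Y / 4)| ≤ 1 / 4 := by
    rw [abs_mul]
    exact (mul_le_mul hc hu (abs_nonneg _) (by norm_num)).trans (by norm_num)
  have hm' := abs_le.1 hm
  apply mul_pos
  · linarith [hm'.1]
  · have : Real.cos Y * -(Real.cos X / 4) = -(Real.cos X * (Real.cos Y / 4)) := by ring
    rw [this] at h2
    linarith [hm'.2]

lemma Q_le (X Y : ℝ) : Q X Y ≤ 1 - 1 / 100 * (Real.cos X ^ 2 + Real.cos Y ^ 2) := by
  have hc := Real.abs_cos_le_one X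
  have hC := Real.abs_cos_le_one Y
  have hs := Real.abs_sin_le_one X
  have hS := Real.abs_sin_le_one Y
  have hu : |Real.cos Y / 4| ≤ 1 / 4 := by rw [abs_div]; norm_num; linarith
  have hv : |-(Real.cos X / 4)| ≤ 1 / 4 := by rw [abs_neg, abs_div]; norm_num; linarith
  have ha : |Real.cos Y / 4 * Real.sin X| ≤ 1 / 4 := by
    rw [abs_mul]
    exact (mul_le_mul hu hs (abs_nonneg _) (by norm_num)).trans (by norm_num)
  have hb : |-(Real.cos X / 4) * Real.sin Y| ≤ 1 / 4 := by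
    rw [abs_mul]
    exact (mul_le_mul hv hS (abs_nonneg _) (by norm_num)).trans (by norm_num)
  obtain ⟨h1, h1'⟩ := q_bd hc hu ha
  obtain ⟨h2, h2'⟩ := q_bd hC hv hb
  have ha2 : (Real.cos Y / 4 * Real.sin X) ^ 2 ≤ 1 / 16 := by
    have := sq_le_sq' (by linarith [abs_nonneg (Real.cos Y / 4 * Real.sin X)]) ha
    rw [sq_abs] at this; linarith
  have hb2 : (-(Real.cos X / 4) * Real.sin Y) ^ 2 ≤ 1 / 16 := by
    have := sq_le_sq' (by linarith [abs_nonneg (-(Real.cos X / 4) * Real.sin Y)]) hb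
    rw [sq_abs] at this; linarith
  have hm : |Real.cos X * (Real.cos Y / 4)| ≤ 1 / 4 := by
    rw [abs_mul]
    exact (mul_le_mul hc hu (abs_nonneg _) (by norm_num)).trans (by norm_num)
  have hm' := abs_le.1 hm
  have e2 : Real.cos Y * -(Real.cos X / 4) = -(Real.cos X * (Real.cos Y / 4)) := by ring
  rw [e2] at h2 h2'
  have hs2 : Real.sin X ^ 2 = 1 - Real.cos X ^ 2 := by linarith [Real.sin_sq_add_cos_sq X]
  have hS2 : Real.sin Y ^ 2 = 1 - Real.cos Y ^ 2 := by linarith [Real.sin_sq_add_cos_sq Y]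
  unfold Q
  set m := Real.cos X * (Real.cos Y / 4) with hmdef
  set A := q (Real.cos X) (Real.cos Y / 4) (Real.cos Y / 4 * Real.sin X) - 1 - m with hA
  set B := q (Real.cos Y) (-(Real.cos X / 4)) (-(Real.cos X / 4) * Real.sin Y) - 1 - -m with hB
  set a := Real.cos Y / 4 * Real.sin X with hadef
  set b := -(Real.cos X / 4) * Real.sin Y with hbdef
  have e3 : q (Real.cos X) (Real.cos Y / 4) a = 1 + m + A := by rw [hA]; ring
  have e4 : q (Real.cos Y) (-(Real.cos X / 4)) b = 1 - m + B := by rw [hB]; ring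
  rw [e3, e4]
  have hA0 : A ≤ 0 := by linarith [sq_nonneg a]
  have hB0 : B ≤ 0 := by linarith [sq_nonneg b]
  have hAB : A * B ≤ 1 / 50 * b ^ 2 := by
    have k1 : -A ≤ 55 / 100 * a ^ 2 := by linarith
    have k2 : -B ≤ 55 / 100 * b ^ 2 := by linarith
    have k3 : (-A) * (-B) ≤ (55 / 100 * a ^ 2) * (55 / 100 * b ^ 2) :=
      mul_le_mul k1 k2 (by linarith) (by positivity)
    have k4 := mul_nonneg (sq_nonneg b) (sub_nonneg.2 ha2)
    have k5 := sq_nonneg b
    have k6 : A * B = (-A) * (-B) := by ring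
    rw [k6]
    refine k3.trans ?_
    linarith
  have hA1 : (1 - m) * A ≤ -(33 / 100) * a ^ 2 := by
    have : (1 - m) * A ≤ 3 / 4 * A :=
      mul_le_mul_of_nonpos_right (by linarith [hm'.2]) hA0
    linarith
  have hB1 : (1 + m) * B ≤ -(33 / 100) * b ^ 2 := by
    have : (1 + m) * B ≤ 3 / 4 * B :=
      mul_le_mul_of_nonpos_right (by linarith [hm'.1]) hB0
    linarith
  have main : (1 + m + A) * (1 - m + B) ≤ 1 - m ^ 2 - 31 / 100 * (a ^ 2 + b ^ 2) := by
    have e6 : (1 + m + A) * (1 - m + B) = 1 - m ^ 2 + (1 - m) * A + (1 + m) * B + A * B := by ring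
    rw [e6]
    linarith [sq_nonneg a, sq_nonneg b]
  refine main.trans ?_
  have ea : a ^ 2 = Real.cos Y ^ 2 / 16 * (1 - Real.cos X ^ 2) := by rw [hadef, ← hs2]; ring
  have eb : b ^ 2 = Real.cos X ^ 2 / 16 * (1 - Real.cos Y ^ 2) := by rw [hbdef, ← hS2]; ring
  have em : m ^ 2 = Real.cos X ^ 2 * Real.cos Y ^ 2 / 16 := by rw [hmdef]; ring
  rw [ea, eb, em]
  have f1 := sq_nonneg (Real.cos X)
  have f2 := sq_nonneg (Real.cos Y)
  have f3 := mul_nonneg f1 f2
  linarith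

end Pool.Agent.R191.Eye
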