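import Pool.Agent.R191.Eye

/-!
# The exponents at the fixed points
-/

set_option autoImplicit false

open Set Filter Topology MeasureTheory Function
open scoped ContDiff

namespace Pool.Agent.R191.Eye

open Pool.Agent.TH292.MR (Torus Plane proj IsInvariant)

/-- The norm of the map induced by `A` on the exterior algebra of the plane. -/
noncomputable def extN (A : Plane →L[ℝ] Plane) : ℝ := max 1 (max ‖A‖ |A.det|)

lemma log_lim {a : ℕ → ℝ} {C r : ℝ} (hr : 0 < r) (h1 : ∀ n, r ^ n ≤ a n)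
    (h2 : ∀ n, a n ≤ C * r ^ n) :
    Tendsto (fun n : ℕ => (1 / (n : ℝ)) * Real.log (a n)) atTop (𝓝 (Real.log r)) := by
  have hC : 0 < C := by
    have a1 := h1 0
    have a2 := h2 0
    simp only [pow_zero, mul_one] at a1 a2
    linarith
  have lim2 : Tendsto (fun n : ℕ => Real.log r + Real.log C / (n : ℝ)) atTop (𝓝 (Real.log r)) := by
    have := (tendsto_const_nhds (x := Real.log C)).div_atTop (tendsto_natCast_atTop_atTop (R := ℝ))
    simpa using this.const_add (Real.log r)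
  refine tendsto_of_tendsto_of_tendsto_of_le_of_le' (tendsto_const_nhds (x := Real.log r)) lim2 ?_ ?_
  · filter_upwards [eventually_gt_atTop 0] with n hn
    have hn' : (0 : ℝ) < n := by exact_mod_cast hn
    have hp : 0 < r ^ n := by positivity
    have := Real.log_le_log hp (h1 n)
    rw [Real.log_pow] at this
    rw [one_div, inv_mul_eq_div, le_div_iff₀ hn']
    linarith
  · filter_upwards [eventually_gt_atTop 0] with n hn
    have hn' : (0 : ℝ) < n := by exact_mod_cast hn
    have hp : 0 < r ^ n := by positivity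
    have := Real.log_le_log (hp.trans_le (h1 n)) (h2 n)
    rw [Real.log_mul hC.ne' hp.ne', Real.log_pow] at this
    rw [one_div, inv_mul_eq_div, div_le_iff₀ hn', add_mul, div_mul_cancel₀ _ hn'.ne']
    linarith

/-- The derivative `(1 + α, -β; β, 1 - α)`. -/
noncomputable def DM (α β : ℝ) : Plane →L[ℝ] Plane := ContinuousLinearMap.id ℝ Plane + LM α β

lemma DM_apply (α β : ℝ) (v : Plane) :
    DM α β v = ((1 + α) * v.1 - β * v.2, β * v.1 + (1 - α) * v.2) := by
  show v + LM α β v = _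
  rw [LM_apply]
  ext <;> simp <;> ring

lemma DM_det (α β : ℝ) : (DM α β).det = 1 - α ^ 2 + β ^ 2 := by
  have h : (DM α β).det = LinearMap.det ((DM α β : Plane →L[ℝ] Plane) : Plane →ₗ[ℝ] Plane) := rfl
  rw [h, ← LinearMap.det_toMatrix (Module.Basis.finTwoProd ℝ), Matrix.det_fin_two]
  have r0 : ∀ v : Plane, (Module.Basis.finTwoProd ℝ).repr v 0 = v.1 := fun v => rfl
  have r1 : ∀ v : Plane, (Module.Basis.finTwoProd ℝ).repr v 1 = v.2 := fun v => rfl
  simp only [LinearMap.toMatrix_apply, Module.Basis.finTwoProd_zero, Module.Basis.finTwoProd_one,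
    ContinuousLinearMap.coe_coe, DM_apply, r0, r1]
  ring

lemma det_pow (A : Plane →L[ℝ] Plane) (n : ℕ) : (A ^ n).det = A.det ^ n := by
  have h : ∀ B : Plane →L[ℝ] Plane,
      B.det = LinearMap.det ((B : Plane →L[ℝ] Plane) : Plane →ₗ[ℝ] Plane) := fun _ => rfl
  rw [h, h, ← map_pow]
  congr 1
  induction n with
  | zero => rfl
  | succ n ih =>
    rw [pow_succ, pow_succ, ← ih]
    rfl

/-- Saddles. -/
lemma saddle_lim {α : ℝ} (hα : |α| = 1 / 4) :
    Tendsto (fun n : ℕ => (1 / (n : ℝ)) * Real.log (extN (DM α 0 ^ n))) atTop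
      (𝓝 (Real.log (5 / 4))) := by
  have hsq : α ^ 2 = 1 / 16 := by rw [← sq_abs, hα]; norm_num
  have hpow : ∀ (n : ℕ) (v : Plane), (DM α 0 ^ n) v = ((1 + α) ^ n * v.1, (1 - α) ^ n * v.2) := by
    intro n
    induction n with
    | zero => intro v; simp
    | succ n ih =>
      intro v
      rw [pow_succ (DM α 0), mul_apply_eq_comp, ih, DM_apply]
      ext <;> simp <;> ring
  have hnorm : ‖DM α 0‖ ≤ 5 / 4 := by
    refine (norm_add_le _ _).trans ?_
    have h1 : ‖ContinuousLinearMap.id ℝ Plane‖ ≤ 1 := ContinuousLinearMap.norm_id_le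
    have h2 := LM_norm α 0
    rw [hα, abs_zero] at h2
    linarith
  refine log_lim (C := 1) (by norm_num) (fun n => ?_) (fun n => ?_)
  · refine le_trans ?_ ((le_max_left _ _).trans (le_max_right _ _))
    rcases (abs_eq (by norm_num : (0 : ℝ) ≤ 1 / 4)).1 hα with h | h
    · have := (DM α 0 ^ n).le_opNorm ((1 : ℝ), (0 : ℝ))
      rw [hpow, h] at this
      have e1 : ‖((1 : ℝ), (0 : ℝ))‖ = 1 := by simp [Prod.norm_def]
      rw [← h, e1, mul_one (‖DM α 0 ^ n‖)] at this
      refine le_trans ?_ this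
      refine le_trans ?_ (norm_fst_le _)
      rw [mul_one, Real.norm_eq_abs, h]
      refine le_trans (le_of_eq ?_) (le_abs_self _)
      norm_num
    · have := (DM α 0 ^ n).le_opNorm ((0 : ℝ), (1 : ℝ))
      rw [hpow, h] at this
      have e1 : ‖((0 : ℝ), (1 : ℝ))‖ = 1 := by simp [Prod.norm_def]
      rw [e1, mul_one (‖DM (-(1 / 4)) 0 ^ n‖), ← h] at this
      refine le_trans ?_ this
      refine le_trans ?_ (norm_snd_le _)
      rw [mul_one, Real.norm_eq_abs, h]
      refine le_trans (le_of_eq ?_) (le_abs_self _)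
      norm_num
  · rw [one_mul]
    have one_le : (1 : ℝ) ≤ (5 / 4) ^ n := one_le_pow₀ (by norm_num)
    refine max_le one_le (max_le ?_ ?_)
    · exact (norm_pow_le _ n).trans (pow_le_pow_left₀ (norm_nonneg _) hnorm n)
    · rw [det_pow, DM_det, hsq, abs_pow]
      exact pow_le_pow_left₀ (abs_nonneg _) (by rw [abs_le]; constructor <;> norm_num) n

/-- Sources. -/
lemma source_lim {β : ℝ} (hβ : |β| = 1 / 4) :
    Tendsto (fun n : ℕ => (1 / (n : ℝ)) * Real.log (extN (DM 0 β ^ n))) atTop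
      (𝓝 (Real.log (17 / 16))) := by
  have hsq : β ^ 2 = 1 / 16 := by rw [← sq_abs, hβ]; norm_num
  have hpow : ∀ (n : ℕ) (v : Plane), ((DM 0 β ^ n) v).1 ^ 2 + ((DM 0 β ^ n) v).2 ^ 2 =
      (17 / 16) ^ n * (v.1 ^ 2 + v.2 ^ 2) := by
    intro n
    induction n with
    | zero => intro v; simp
    | succ n ih =>
      intro v
      rw [pow_succ (DM 0 β), mul_apply_eq_comp, ih, DM_apply]
      simp only
      have : ((1 + 0) * v.1 - β * v.2) ^ 2 + (β * v.1 + (1 - 0) * v.2) ^ 2 =
        (1 + β ^ 2) * (v.1 ^ 2 + v.2 ^ 2) := by ring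
      rw [this, hsq, pow_succ]
      ring
  refine log_lim (C := 2) (by norm_num) (fun n => ?_) (fun n => ?_)
  · refine le_trans ?_ ((le_max_right _ _).trans (le_max_right _ _))
    rw [det_pow, DM_det, hsq]
    refine le_trans (le_of_eq ?_) (le_abs_self _)
    norm_num
  · have one_le : (1 : ℝ) ≤ (17 / 16) ^ n := one_le_pow₀ (by norm_num)
    refine max_le (by linarith) (max_le ?_ ?_)
    · refine ContinuousLinearMap.opNorm_le_bound _ (by positivity) fun v => ?_
      have h1 := hpow n v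
      have h2 : |v.1| ≤ ‖v‖ := norm_fst_le v
      have h3 : |v.2| ≤ ‖v‖ := norm_snd_le v
      have h4 : v.1 ^ 2 ≤ ‖v‖ ^ 2 := by rw [← sq_abs v.1]; exact pow_le_pow_left₀ (abs_nonneg _) h2 2
      have h5 : v.2 ^ 2 ≤ ‖v‖ ^ 2 := by rw [← sq_abs v.2]; exact pow_le_pow_left₀ (abs_nonneg _) h3 2
      have h6 : (17 / 16 : ℝ) ^ n ≤ ((17 / 16) ^ n) ^ 2 := by nlinarith
      have key : ∀ t : ℝ, t ^ 2 ≤ (17 / 16) ^ n * (v.1 ^ 2 + v.2 ^ 2) → |t| ≤ 2 * (17 / 16) ^ n * ‖v‖ := by
        intro t ht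
        apply abs_le_of_sq_le_sq _ (by positivity)
        have h7 : (17 / 16 : ℝ) ^ n * (v.1 ^ 2 + v.2 ^ 2) ≤ ((17 / 16) ^ n) ^ 2 * (2 * ‖v‖ ^ 2) :=
          mul_le_mul h6 (by linarith) (by positivity) (by positivity)
        have h8 : 0 ≤ ((17 / 16 : ℝ) ^ n) ^ 2 * ‖v‖ ^ 2 := by positivity
        calc t ^ 2 ≤ ((17 / 16) ^ n) ^ 2 * (2 * ‖v‖ ^ 2) := ht.trans h7
          _ ≤ (2 * (17 / 16) ^ n * ‖v‖) ^ 2 := by
              have : (2 * (17 / 16 : ℝ) ^ n * ‖v‖) ^ 2 = 4 * (((17 / 16) ^ n) ^ 2 * ‖v‖ ^ 2) := by ring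
              rw [this]; linarith
      rw [Prod.norm_def]
      apply max_le
      · exact key _ (by linarith [sq_nonneg ((DM 0 β ^ n) v).2])
      · exact key _ (by linarith [sq_nonneg ((DM 0 β ^ n) v).1])
    · rw [det_pow, DM_det, hsq, abs_pow]
      have : |(1 - 0 ^ 2 + 1 / 16 : ℝ)| = 17 / 16 := by norm_num
      rw [this]
      linarith

lemma fd_iter {z : Plane} (h : proj z ∈ Fix) (n : ℕ) : fderiv ℝ (FF^[n]) z =
    DM (Real.cos (ang z.1) * Real.cos (ang z.2) / 4) (Real.sin (ang z.1) * Real.sin (ang z.2) / 4) ^ n := by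
  have h1 := pert.hasFDerivAt z
  rw [(pp_deriv z).fderiv] at h1
  exact (HasFDerivAt.iterate h1 (FF_fix h) n).fderiv

open Classical in
/-- The sum of the positive exponents. -/
noncomputable def chi (w : Torus) : ℝ :=
  if sx w = 0 ∧ sy w = 0 then Real.log (5 / 4) else Real.log (17 / 16)

lemma chi_meas : Measurable chi := by
  classical
  refine Measurable.ite ?_ measurable_const measurable_const
  exact (isClosed_singleton.preimage sx_cont).measurableSet.inter
    (isClosed_singleton.preimage sy_cont).measurableSet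

lemma le_chi (w : Torus) : Real.log (17 / 16) ≤ chi w := by
  unfold chi
  split_ifs
  · exact Real.log_le_log (by norm_num) (by norm_num)
  · exact le_rfl

lemma chi_le (w : Torus) : chi w ≤ Real.log (5 / 4) := by
  unfold chi
  split_ifs
  · exact le_rfl
  · exact Real.log_le_log (by norm_num) (by norm_num)

lemma chi_lim {w : Torus} (hw : w ∈ Fix) (z : Plane) (hz : proj z = w) :
    Tendsto (fun n : ℕ => (1 / (n : ℝ)) * Real.log (extN (fderiv ℝ (FF^[n]) z))) atTop
      (𝓝 (chi w)) := by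
  subst hz
  have h1 := Real.sin_sq_add_cos_sq (ang z.1)
  have h2 := Real.sin_sq_add_cos_sq (ang z.2)
  simp_rw [fd_iter hw]
  unfold chi
  rcases hw with ⟨a, b⟩ | ⟨a, b⟩
  · rw [if_pos ⟨a, b⟩]
    rw [sx_proj] at a; rw [sy_proj] at b
    rw [a] at h1; rw [b] at h2
    rw [a, zero_mul, zero_div]
    apply saddle_lim
    have h3 : (Real.cos (ang z.1) * Real.cos (ang z.2) / 4) ^ 2 = (1 / 4) ^ 2 := by
      have e1 : Real.cos (ang z.1) ^ 2 = 1 := by linarith
      have e2 : Real.cos (ang z.2) ^ 2 = 1 := by linarith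
      calc (Real.cos (ang z.1) * Real.cos (ang z.2) / 4) ^ 2
          = Real.cos (ang z.1) ^ 2 * Real.cos (ang z.2) ^ 2 / 16 := by ring
        _ = (1 / 4) ^ 2 := by rw [e1, e2]; norm_num
    have := sq_eq_sq_iff_abs_eq_abs _ _ |>.1 h3
    rw [this]; norm_num
  · have hn : ¬ (sx (proj z) = 0 ∧ sy (proj z) = 0) := by
      rintro ⟨c, -⟩
      have := sq1 (proj z)
      rw [a, c] at this
      norm_num at this
    rw [if_neg hn]
    rw [cx_proj] at a; rw [cy_proj] at b
    rw [a] at h1; rw [b] at h2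
    rw [a, zero_mul, zero_div]
    apply source_lim
    have h3 : (Real.sin (ang z.1) * Real.sin (ang z.2) / 4) ^ 2 = (1 / 4) ^ 2 := by
      have e1 : Real.sin (ang z.1) ^ 2 = 1 := by linarith
      have e2 : Real.sin (ang z.2) ^ 2 = 1 := by linarith
      calc (Real.sin (ang z.1) * Real.sin (ang z.2) / 4) ^ 2
          = Real.sin (ang z.1) ^ 2 * Real.sin (ang z.2) ^ 2 / 16 := by ring
        _ = (1 / 4) ^ 2 := by rw [e1, e2]; norm_num
    have := sq_eq_sq_iff_abs_eq_abs _ _ |>.1 h3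
    rw [this]; norm_num

end Pool.Agent.R191.Eye
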